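import Mathlib
import Pool.Agent.H741.RS.Stm

/-!
# RS UNIT: an automorphism of the ball which fixes the origin is unitary
-/

set_option autoImplicit false
open scoped ComplexConjugate

namespace Pool.Agent.H100.RS

open Pool.Agent.H741.RS

theorem hp_self {n : ℕ} (z : V n) : hp z z = ((‖z‖ ^ 2 : ℝ) : ℂ) := by
  unfold hp
  rw [inner_self_eq_norm_sq_to_K]
  push_cast
  rfl

theorem t_UNIT : S_UNIT := by
  intro n A hA hfr
  obtain ⟨a, w, haw⟩ : ∃ (a : ℂ) (w : V n), A (1, 0) = (a, w) := ⟨_, _, rfl⟩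
  have h1 : J (A (1, 0)) (A (1, 0)) = 1 := by
    rw [hA]
    unfold J hp
    simp
  have h2 : a * conj a - ((‖w‖ ^ 2 : ℝ) : ℂ) = 1 := by
    rw [haw] at h1
    unfold J at h1
    rw [hp_self] at h1
    exact h1
  have h3 : ‖a‖ ^ 2 = 1 + ‖w‖ ^ 2 := by
    rw [Complex.mul_conj, Complex.normSq_eq_norm_sq] at h2
    have h4 : ((‖a‖ ^ 2 - ‖w‖ ^ 2 : ℝ) : ℂ) = ((1 : ℝ) : ℂ) := by
      push_cast
      push_cast at h2
      exact h2
    have h5 := Complex.ofReal_injective h4
    linarith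
  have ha0 : a ≠ 0 := by
    intro h
    rw [h, norm_zero] at h3
    nlinarith [sq_nonneg ‖w‖]
  have hw0 : w = 0 := by
    have h4 : a⁻¹ • w = 0 := by
      unfold frac at hfr
      rw [haw] at hfr
      exact hfr
    rcases smul_eq_zero.1 h4 with h | h
    · exact absurd (inv_eq_zero.1 h) ha0
    · exact h
  have hna : ‖a‖ = 1 := by
    rw [hw0, norm_zero] at h3
    have h4 : ‖a‖ ^ 2 = 1 := by linarith
    exact (pow_eq_one_iff_of_nonneg (norm_nonneg a) (by norm_num)).1 h4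
  subst hw0
  have hfst : ∀ x : V n, (A (0, x)).1 = 0 := by
    intro x
    have h := hA (0, x) (1, 0)
    rw [haw] at h
    unfold J hp at h
    simp only [inner_zero_left, sub_zero, zero_mul, mul_eq_zero] at h
    rcases h with h | h
    · exact h
    · exact absurd ((map_eq_zero _).1 h) ha0
  let L : V n →ₗ[ℂ] V n := LinearMap.snd ℂ ℂ (V n) ∘ₗ A ∘ₗ LinearMap.inr ℂ ℂ (V n)
  have hL : ∀ x, L x = (A (0, x)).2 := fun x => rfl
  have hLn : ∀ x, ‖L x‖ = ‖x‖ := by
    intro x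
    have h := hA (0, x) (0, x)
    unfold J at h
    rw [hfst x, ← hL x, hp_self, hp_self] at h
    simp only [zero_mul, zero_sub, neg_inj] at h
    have h5 := Complex.ofReal_injective h
    exact (pow_left_inj₀ (norm_nonneg _) (norm_nonneg _) (by norm_num)).1 h5
  let U0 : V n →ₗᵢ[ℂ] V n :=
    { toLinearMap := a⁻¹ • L
      norm_map' := fun x => by
        rw [LinearMap.smul_apply, norm_smul, norm_inv, hna, inv_one, one_mul, hLn] }
  have hU0 : ∀ x, U0 x = a⁻¹ • L x := fun x => rfl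
  refine ⟨U0.toLinearIsometryEquiv rfl, a, hna, fun z => ?_⟩
  have h4 : ((1, z) : ℂ × V n) = (1, 0) + (0, z) := by
    rw [Prod.mk_add_mk, add_zero, zero_add]
  have h5 : A (0, z) = (0, L z) := Prod.ext (hfst z) rfl
  rw [h4, map_add, haw, h5, Prod.mk_add_mk, add_zero, zero_add]
  have h6 : (U0.toLinearIsometryEquiv rfl) z = a⁻¹ • L z := rfl
  rw [h6, smul_smul, mul_inv_cancel₀ ha0, one_smul]

end Pool.Agent.H100.RS
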